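import Pool.Agent.Books.Sym.Final

set_option autoImplicit false

/-!
# MP_cd78fc_co: books in graphs with a large group of automorphisms

A finite group `Γ` acts by automorphisms on a graph in which every edge is in a triangle. The
triangles are described by triples of group elements with product one; since every edge is in few
triangles one can select a large tricoloured product-free family, whose size is bounded by the
slice rank method if `Γ` has a suitable normal subgroup: an elementary abelian group, a `p`-group
of bounded class and exponent, a central extension of an elementary abelian group, or a power
`H ^ n`. For the second and the third kind the powers of the augmentation ideal of the group algebra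
take the place of the degree; for `p`-groups of bounded class these powers are described, one layer
at a time, by the smallest series of subgroups adapted to commutators and `p`-th powers. A normal
abelian subgroup of bounded exponent contains a subgroup of the first kind, a normal nilpotent
subgroup one of the second kind (a Sylow subgroup). A normal solvable subgroup `S` of bounded
exponent contains a critical pair `A ≤ D`: `A` is abelian and central in `D`, `D / A` is abelian
and `A` contains the centraliser of `D` in `S`; so it contains a subgroup of the third kind.
-/

namespace Pool.Agent.Results.MP_cd78fc_co.GroupSymmetry

open Finset Pool.Agent.Books.Sym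

/-- Books in graphs on which a large group acts: some edge is in at least
`(|E| / 8) ^ (1 / 2) * exp x / (h * Q * |V|)` triangles, where `Q` is the number of orbits. -/
theorem result (Γ : Type) [Group Γ] [Fintype Γ] (x : ℝ) (hx : Rich Γ x)
    (V : Type) [Fintype V] (G : SimpleGraph V) [DecidableRel G.Adj] [MulAction Γ V] (h : ℕ)
    (hG : ActsOn Γ G h) (hT : Covered G) (hne : ∃ u v : V, G.Adj u v) :
    ∃ u v : V, G.Adj u v ∧ Real.sqrt ((G.edgeFinset.card : ℝ) / 8) * Real.exp x ≤
      (h : ℝ) * (orbits Γ V : ℝ) * (Fintype.card V : ℝ) * (triangles G u v : ℝ) :=
  rich_book x hx G h hG hT hne

end Pool.Agent.Results.MP_cd78fc_co.GroupSymmetry
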