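import Pool.Agent.Books.Pointwise
import Pool.Agent.Books.Framework

set_option autoImplicit false

/-!
# MP_cd78fc_co: linear books in graphs of minimum degree at least `5n/17`

The proof is a weighted count of quintuples of vertices (a flag algebra certificate on five
points); the pointwise inequality of the certificate is evaluated in the kernel
(`Pool.Agent.Books.Pointwise`), the double counting is in `Pool.Agent.Books.Framework`.
-/

namespace Pool.Agent.Results.MP_cd78fc_co.MinDegree

open Finset

/-- There is `c > 0` such that every graph on `n ≥ 1` vertices in which every vertex has degree at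
least `5n/17` and every edge lies in a triangle has an edge which lies in at least `c n` triangles. -/
theorem result :
    ∃ c : ℝ, 0 < c ∧ ∀ (n : ℕ) (G : SimpleGraph (Fin n)) [DecidableRel G.Adj], 1 ≤ n →
      (∀ v : Fin n, (5 / 17 : ℝ) * (n : ℝ) ≤ (G.degree v : ℝ)) →
      (∀ u v : Fin n, G.Adj u v → ∃ w : Fin n, G.Adj u w ∧ G.Adj v w) →
      ∃ u v : Fin n, G.Adj u v ∧
        c * (n : ℝ) ≤ ((univ.filter (fun w : Fin n => G.Adj u w ∧ G.Adj v w)).card : ℝ) := by
  obtain ⟨K, hK⟩ := Pool.Agent.Books.framework _ _ _ Pool.Agent.Books.hcb17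
    Pool.Agent.Books.pointwise17
  refine ⟨1 / ((K : ℝ) + 1), by positivity, ?_⟩
  intro n G _ hn hdeg htri
  have : Nonempty (Fin n) := ⟨⟨0, hn⟩⟩
  have hdeg' : ∀ v : Fin n, 5 * n ≤ 17 * G.degree v := by
    intro v
    have h := hdeg v
    have h2 : (5 : ℝ) * n ≤ 17 * G.degree v := by linarith
    exact_mod_cast h2
  have hne : (univ.filter fun p : Fin n × Fin n => G.Adj p.1 p.2).Nonempty := by
    have h := hdeg' ⟨0, hn⟩
    have hpos : 0 < G.degree ⟨0, hn⟩ := by omega
    rw [SimpleGraph.degree_pos_iff_exists_adj] at hpos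
    obtain ⟨w, hw⟩ := hpos
    exact ⟨(⟨0, hn⟩, w), by simpa using hw⟩
  obtain ⟨p, hp, hmax⟩ := Finset.exists_max_image _
    (fun p : Fin n × Fin n => (univ.filter (fun w : Fin n => G.Adj p.1 w ∧ G.Adj p.2 w)).card) hne
  rw [mem_filter] at hp
  refine ⟨p.1, p.2, hp.2, ?_⟩
  have key : n ≤ K * (univ.filter (fun w : Fin n => G.Adj p.1 w ∧ G.Adj p.2 w)).card := by
    have h := hK (Fin n) G (univ.filter (fun w : Fin n => G.Adj p.1 w ∧ G.Adj p.2 w)).card
      (fun v => by
        have h1 := hdeg' v
        rw [Fintype.card_fin]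
        exact (congrArg (fun i => 5 * n ≤ 17 * @SimpleGraph.degree _ G v i)
          (Subsingleton.elim _ _)).mp h1) htri
      (fun u v huv => by
        have h1 := hmax (u, v) (by simpa using huv)
        refine le_trans (le_of_eq ?_) h1
        congr 1
        ext w
        simp only [mem_filter, mem_univ, true_and])
    rwa [Fintype.card_fin] at h
  have key' : (n : ℝ) ≤ K * ((univ.filter
      (fun w : Fin n => G.Adj p.1 w ∧ G.Adj p.2 w)).card : ℝ) := by exact_mod_cast key
  have hK0 : (0 : ℝ) < (K : ℝ) + 1 := by positivity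
  rw [one_div, inv_mul_le_iff₀ hK0]
  have : (0 : ℝ) ≤ ((univ.filter (fun w : Fin n => G.Adj p.1 w ∧ G.Adj p.2 w)).card : ℝ) := by
    positivity
  nlinarith

end Pool.Agent.Results.MP_cd78fc_co.MinDegree
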