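import Pool.Agent.Lib.MP_cd78fc_co.Final

set_option autoImplicit false

/-!
# MP_cd78fc_co: books in graphs with almost `n ^ 2 / 4` edges, every edge in a triangle
-/

namespace Pool.Agent.Results.MP_cd78fc_co.NearExtremal

open Pool.Agent.Lib.MP_cd78fc_co

/-- (1) For every `K > 0` there are `C > 0` and `N` such that every graph on `n ≥ N` vertices with at
least `n² / 4 - K n² / (log n)^(2/5)` edges, every edge in a triangle, has an edge in at least
`C log n` triangles. (2) For `n ≤ t < n² / 4`, every graph on `n` vertices with at least `n² / 4 - t`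
edges, every edge in a triangle, has an edge in at least
`10^(-10) min (n^(3/2) / t^(1/2), (n² / t)^(5/2))` triangles. (3) For `n ≤ t ≤ n² / 5` there is such a
graph with all edges in at most `n^(3/2) / t^(1/2)` triangles. -/
theorem result :
    (∀ K : ℝ, 0 < K → ∃ C : ℝ, 0 < C ∧ ∃ N : ℕ, ∀ n : ℕ, N ≤ n →
      ∀ (G : SimpleGraph (Fin n)) [DecidableRel G.Adj],
        (n : ℝ) ^ 2 / 4 - K * (n : ℝ) ^ 2 / Real.log n ^ ((2 : ℝ) / 5) ≤
          (G.edgeFinset.card : ℝ) →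
        (∀ u v : Fin n, G.Adj u v → ∃ w : Fin n, G.Adj u w ∧ G.Adj v w) →
        ∃ u v : Fin n, G.Adj u v ∧ C * Real.log n ≤
          ((Finset.univ.filter (fun w : Fin n => G.Adj u w ∧ G.Adj v w)).card : ℝ)) ∧
    (∀ (n : ℕ) (t : ℝ) (G : SimpleGraph (Fin n)) [DecidableRel G.Adj], 1 ≤ n →
      (n : ℝ) ≤ t → t < (n : ℝ) ^ 2 / 4 → (n : ℝ) ^ 2 / 4 - t ≤ (G.edgeFinset.card : ℝ) →
      (∀ u v : Fin n, G.Adj u v → ∃ w : Fin n, G.Adj u w ∧ G.Adj v w) →
      ∃ u v : Fin n, G.Adj u v ∧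
        1 / 10 ^ 10 * Real.sqrt (min ((n : ℝ) ^ 3 / t) (((n : ℝ) ^ 2 / t) ^ 5)) ≤
          ((Finset.univ.filter (fun w : Fin n => G.Adj u w ∧ G.Adj v w)).card : ℝ)) ∧
    (∀ (n : ℕ) (t : ℝ), 1 ≤ n → (n : ℝ) ≤ t → t ≤ (n : ℝ) ^ 2 / 5 →
      ∃ (G : SimpleGraph (Fin n)) (_ : DecidableRel G.Adj),
        (n : ℝ) ^ 2 / 4 - t ≤ (G.edgeFinset.card : ℝ) ∧
        (∀ u v : Fin n, G.Adj u v → ∃ w : Fin n, G.Adj u w ∧ G.Adj v w) ∧
        ∀ u v : Fin n, G.Adj u v →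
          ((Finset.univ.filter (fun w : Fin n => G.Adj u w ∧ G.Adj v w)).card : ℝ) ≤
            Real.sqrt ((n : ℝ) ^ 3 / t)) :=
  ⟨fun K hK => log_bound K hK, fun n t G _ => lower_bound n t G, upper_bound⟩

end Pool.Agent.Results.MP_cd78fc_co.NearExtremal
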