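import Pool.Agent.Lib.MP_cd78fc_co.VC.Final

set_option autoImplicit false

/-!
# MP_cd78fc_co: books in graphs of small VC dimension, every edge in a triangle

The VC dimension of a graph is the VC dimension (`Finset.vcDim` of Mathlib) of the family of the
neighbourhoods of its vertices.
-/

namespace Pool.Agent.Results.MP_cd78fc_co.VCDimension

open Pool.Agent.Lib.MP_cd78fc_co.VC

/-- Let `G` be a graph on `n` vertices with at least `c n ^ 2` edges, every edge in a triangle.
(1) If every edge is in at most `b` triangles then there are at least `c n / (3 b)` vertices any two of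
whose neighbourhoods differ in more than `c n / (6 b)` vertices. (2) If the VC dimension of `G` is at
most `d` then an edge is in at least `(c / 132) n ^ (1 / (d + 1))` triangles. (3) For all `C > 0` and
`0 < ε < 1`: if `n` is large and the VC dimension is at most `(1 - ε) log n / log log n` then an edge is
in at least `C log n` triangles. -/
theorem result :
    (∀ (n b : ℕ) (c : ℝ), 0 < c → 1 ≤ b → ∀ (G : SimpleGraph (Fin n)) [DecidableRel G.Adj],
      c * (n : ℝ) ^ 2 ≤ (G.edgeFinset.card : ℝ) →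
      (∀ u v : Fin n, G.Adj u v → ∃ w : Fin n, G.Adj u w ∧ G.Adj v w) →
      (∀ u v : Fin n, G.Adj u v →
        (Finset.univ.filter (fun w : Fin n => G.Adj u w ∧ G.Adj v w)).card ≤ b) →
      ∃ P : Finset (Fin n), c * (n : ℝ) / (3 * b) ≤ (P.card : ℝ) ∧
        ∀ u ∈ P, ∀ v ∈ P, u ≠ v → c * (n : ℝ) / (6 * b) <
          ((symmDiff (Finset.univ.filter (fun w => G.Adj u w))
            (Finset.univ.filter (fun w => G.Adj v w))).card : ℝ)) ∧
    (∀ (n d : ℕ) (c : ℝ), 0 < c → 1 ≤ n → ∀ (G : SimpleGraph (Fin n)) [DecidableRel G.Adj],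
      c * (n : ℝ) ^ 2 ≤ (G.edgeFinset.card : ℝ) →
      (∀ u v : Fin n, G.Adj u v → ∃ w : Fin n, G.Adj u w ∧ G.Adj v w) →
      (Finset.univ.image (fun v : Fin n => Finset.univ.filter (fun w => G.Adj v w))).vcDim ≤ d →
      ∃ u v : Fin n, G.Adj u v ∧ c / 132 * (n : ℝ) ^ ((1 : ℝ) / ((d : ℝ) + 1)) ≤
        ((Finset.univ.filter (fun w : Fin n => G.Adj u w ∧ G.Adj v w)).card : ℝ)) ∧
    (∀ c C ε : ℝ, 0 < c → 0 < C → 0 < ε → ε < 1 → ∃ N : ℕ, ∀ n : ℕ, N ≤ n →
      ∀ (G : SimpleGraph (Fin n)) [DecidableRel G.Adj],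
        c * (n : ℝ) ^ 2 ≤ (G.edgeFinset.card : ℝ) →
        (∀ u v : Fin n, G.Adj u v → ∃ w : Fin n, G.Adj u w ∧ G.Adj v w) →
        ((Finset.univ.image (fun v : Fin n => Finset.univ.filter (fun w => G.Adj v w))).vcDim : ℝ) ≤
          (1 - ε) * Real.log n / Real.log (Real.log n) →
        ∃ u v : Fin n, G.Adj u v ∧ C * Real.log n ≤
          ((Finset.univ.filter (fun w : Fin n => G.Adj u w ∧ G.Adj v w)).card : ℝ)) :=
  ⟨fun n b c hc hb G _ => many_far n b c hc hb G,
    fun n d c hc hn G _ => book_ge n d c hc hn G,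
    fun c C ε hc hC hε hε1 => log_vc c C ε hc hC hε hε1⟩

end Pool.Agent.Results.MP_cd78fc_co.VCDimension
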